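import Pool.Agent.Lib.P2a19db.Torsion
import Pool.Agent.Lib.P2a19db.Count

set_option autoImplicit false

namespace Pool.Agent.Results.MP_2a19db_al.Classification

open Module Pool.Agent.P2a19db

/-- Classification of the `Aut V`-pairs `(a, G)`, `a` a singular endomorphism of a finite-dimensional vector space `V`
over a field `F`, `G` a group of automorphisms of `V`.

1. Over every field, `(a, G)` is an `Aut V`-pair if and only if `G` is transitive on the subspaces of dimension
`rank a`, `G` is transitive on the subspaces of dimension `dim ker a`, and every element `a g a` (`g ∈ G`) of the same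
rank as `a` is regular in the semigroup generated by `a` and `G`.

2. Over a field which is algebraic over a finite field the third condition can be omitted.

3. Over a finite field `(a, G)` is an `Aut V`-pair if and only if `G` is transitive on the subspaces of dimension
`rank a`, and if and only if `G` is transitive on the subspaces of dimension `dim ker a`. -/
theorem result {F V : Type*} [Field F] [AddCommGroup V] [Module F V] [FiniteDimensional F V]
    (a : Module.End F V) (ha : ¬ IsUnit a) (G : Subgroup (V ≃ₗ[F] V)) :
    (IsAutPair a G ↔ TransOn G (finrank F (LinearMap.range a)) ∧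
      TransOn G (finrank F (LinearMap.ker a)) ∧ Reg a G) ∧
    (∀ (p : ℕ) [Fact p.Prime] [Algebra (ZMod p) F], Algebra.IsAlgebraic (ZMod p) F →
      (IsAutPair a G ↔ TransOn G (finrank F (LinearMap.range a)) ∧
        TransOn G (finrank F (LinearMap.ker a)))) ∧
    (Finite F → (IsAutPair a G ↔ TransOn G (finrank F (LinearMap.range a))) ∧
      (IsAutPair a G ↔ TransOn G (finrank F (LinearMap.ker a)))) := by
  refine ⟨criterion ha G, ?_, ?_⟩
  · intro p _ _ halg
    rw [criterion ha G]
    exact ⟨fun h => ⟨h.1, h.2.1⟩, fun h => ⟨h.1, h.2, reg_of_torsion fun u => torsion_of_algebraic p u⟩⟩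
  · intro hF
    have hreg : Reg a G := reg_of_torsion fun u => torsion_of_finite u
    have h1 := LinearMap.finrank_range_add_finrank_ker a
    rw [criterion ha G]
    refine ⟨⟨fun h => h.1, fun h => ⟨h, trans_compl G h1 h, hreg⟩⟩,
      ⟨fun h => h.2.1, fun h => ⟨trans_compl G (by rw [add_comm]; exact h1) h, h, hreg⟩⟩⟩

end Pool.Agent.Results.MP_2a19db_al.Classification
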