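import Pool.Agent.Lib.P2a19di.Main
import Pool.Agent.Lib.P2a19di.Special

set_option autoImplicit false

namespace Pool.Agent.Results.MP_2a19db_al.IsometryGroups

open Module Pool.Agent.P2a19db Pool.Agent.P2a19di

/-- `Aut V`-pairs `(a, G)` for groups `G` of isometries of a finite-dimensional inner product space
over the real or complex numbers. Let `a` be a nonzero singular endomorphism of rank `r`.

1. If `(a, G)` is an `Aut V`-pair, then the product of the `r` nonzero singular values of `a` is greater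
than one.

2. If `G` is transitive on the ordered orthonormal systems of `r` vectors, the converse holds.

3. In particular the equivalence holds if `G` contains every isometry of determinant one. -/
theorem result {𝕜 V : Type*} [RCLike 𝕜] [NormedAddCommGroup V] [InnerProductSpace 𝕜 V]
    [FiniteDimensional 𝕜 V] (a : Module.End 𝕜 V) (ha : ¬ IsUnit a) (ha0 : a ≠ 0)
    (G : Subgroup (V ≃ₗ[𝕜] V)) (hG : ∀ g ∈ G, ∀ v, ‖g v‖ = ‖v‖) :
    (IsAutPair a G →
      1 < ∏ i ∈ Finset.range (finrank 𝕜 (LinearMap.range a)), a.singularValues i) ∧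
    (FrameTrans G (finrank 𝕜 (LinearMap.range a)) →
      (IsAutPair a G ↔
        1 < ∏ i ∈ Finset.range (finrank 𝕜 (LinearMap.range a)), a.singularValues i)) ∧
    ((∀ g : V ≃ₗ[𝕜] V, (∀ v, ‖g v‖ = ‖v‖) → LinearMap.det (g : V →ₗ[𝕜] V) = 1 → g ∈ G) →
      (IsAutPair a G ↔
        1 < ∏ i ∈ Finset.range (finrank 𝕜 (LinearMap.range a)), a.singularValues i)) :=
  ⟨nec ha ha0 hG, fun hF => ⟨nec ha ha0 hG, suff ha ha0 hG hF⟩,
    fun h => ⟨nec ha ha0 hG, suff ha ha0 hG (frameTrans_of_special (rank_lt ha) h)⟩⟩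

end Pool.Agent.Results.MP_2a19db_al.IsometryGroups
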