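import Pool.Agent.Lib.P2a19dr.Real

set_option autoImplicit false

namespace Pool.Agent.Results.MP_2a19db_al.RankOne

open Module Pool.Agent.P2a19db Pool.Agent.P2a19dr

universe u w

/-- `Aut V`-pairs `(a, G)` with `a` of rank one. Let `V` be of dimension `n ≥ 2` over a field `F`, `G` any
subgroup of `Aut V` and `T` the set of the traces of `g a`, `g` in `G`.

1. `(a, G)` is an `Aut V`-pair if and only if `G` is transitive on lines and on hyperplanes and every
nonzero scalar is a product of elements of `T`.

2. If `G` is transitive on lines and on hyperplanes, the quotients of the nonzero elements of `T`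
generate the multiplicative group of `F`.

3. If `G` is transitive on nonzero vectors and on hyperplanes, `(a, G)` is an `Aut V`-pair.

4. If `F` is the field of real numbers and `G` is connected, `(a, G)` is an `Aut V`-pair if and only if
`G` is transitive on lines and on hyperplanes and some element of `T` has absolute value greater
than one. -/
theorem result :
    (∀ (F : Type u) (V : Type w) [Field F] [AddCommGroup V] [Module F V] [FiniteDimensional F V]
      (a : Module.End F V) (G : Subgroup (V ≃ₗ[F] V)), 2 ≤ finrank F V →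
      finrank F (LinearMap.range a) = 1 →
      (IsAutPair a G ↔ TransOn G 1 ∧ TransOn G (finrank F V - 1) ∧
        ∀ c : F, c ≠ 0 → c ∈ Submonoid.closure (traces a G)) ∧
      (TransOn G 1 → TransOn G (finrank F V - 1) →
        ∀ u : Fˣ, u ∈ Subgroup.closure
          {u : Fˣ | ∃ s ∈ traces a G, ∃ t ∈ traces a G, (u : F) = s / t}) ∧
      ((∀ x y : V, x ≠ 0 → y ≠ 0 → ∃ g ∈ G, g x = y) → TransOn G (finrank F V - 1) →
        IsAutPair a G)) ∧
    (∀ (V : Type w) [AddCommGroup V] [Module ℝ V] [FiniteDimensional ℝ V] (n : ℕ)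
      (b : Basis (Fin n) ℝ V) (a : Module.End ℝ V) (G : Subgroup (V ≃ₗ[ℝ] V)), 2 ≤ n →
      finrank ℝ (LinearMap.range a) = 1 →
      IsConnected {M : Matrix (Fin n) (Fin n) ℝ |
        ∃ g ∈ G, LinearMap.toMatrix b b (g : V →ₗ[ℝ] V) = M} →
      (IsAutPair a G ↔ TransOn G 1 ∧ TransOn G (n - 1) ∧ ∃ t ∈ traces a G, 1 < |t|)) := by
  refine ⟨?_, ?_⟩
  · intro F V _ _ _ _ a G hn ha
    exact ⟨crit hn ha G, fun h1 h2 u => traces_generate hn ha h1 h2 u,
      fun h1 h2 => of_vectors hn ha h1 h2⟩
  · intro V _ _ _ n b a G hn ha hG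
    have hd : finrank ℝ V = n := by rw [finrank_eq_card_basis b, Fintype.card_fin]
    have h := crit_connected b (a := a) (by rw [hd]; exact hn) ha hG
    rw [hd] at h
    exact h

end Pool.Agent.Results.MP_2a19db_al.RankOne
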