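import Pool.Agent.Lib.P2a19dl.Fin

set_option autoImplicit false

namespace Pool.Agent.Results.MP_2a19db_al.ValuationGroups

open Module Pool.Agent.P2a19db Pool.Agent.P2a19dl

/-- `Aut V`-pairs `(a, G)` for groups `G` of automorphisms of the lattice `O ^ n` in `V = K ^ n`, where
`K` is a field with a valuation `v` and `O` is the ring of `v`. Let `a` be a nonzero singular
endomorphism of rank `r`.

1. If `(a, G)` is an `Aut V`-pair, then for every `x` in `K` there are an `r × r` minor `d` of `a` and
`m` with `v x ≤ v d ^ m`.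

2. If `G` and the group of the transposes of its elements are transitive on the unimodular systems of
`r` vectors, the converse holds.

3. The converse also holds if `G` contains all automorphisms of `O ^ n` of determinant one.

4. If the value group is archimedean and `v` is not trivial, the condition in 1. says that some `r × r`
minor `d` of `a` has `v d > 1`. -/
theorem result {K Γ₀ : Type*} [Field K] [LinearOrderedCommGroupWithZero Γ₀] (v : Valuation K Γ₀)
    {n : ℕ} (a : Module.End K (Fin n → K)) (ha : ¬ IsUnit a) (ha0 : a ≠ 0)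
    (G : Subgroup ((Fin n → K) ≃ₗ[K] (Fin n → K))) (hG : ∀ g ∈ G, Pres v g) :
    (IsAutPair a G → Exh v a) ∧
    (UnimTrans v G (finrank K (LinearMap.range a)) → (IsAutPair a G ↔ Exh v a)) ∧
    ((∀ g : (Fin n → K) ≃ₗ[K] (Fin n → K), Pres v g →
        LinearMap.det (g : (Fin n → K) →ₗ[K] (Fin n → K)) = 1 → g ∈ G) →
      (IsAutPair a G ↔ Exh v a)) ∧
    (MulArchimedean Γ₀ → (∃ x, 1 < v x) →
      (Exh v a ↔ ∃ s t : Fin (finrank K (LinearMap.range a)) → Fin n,
        1 < v ((LinearMap.toMatrix' a).submatrix s t).det)) :=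
  ⟨nec ha ha0 hG, fun h => ⟨nec ha ha0 hG, suff_trans ha ha0 h⟩,
    fun h => ⟨nec ha ha0 hG, suff_special ha ha0 h⟩, exh_iff⟩

end Pool.Agent.Results.MP_2a19db_al.ValuationGroups
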